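import Pool.Agent.R946.Aloha.D

/-!
The protocol `A₃(C, h, 1 - ε)` with `h(x) = x ^ (3/4) - 1` and `ε(x) = x ^ (-1/3) / 2` is unstable
for every `C > 0` and every input rate. In the slots with a success the variable `S` is almost a
martingale, with relative steps of size `S ^ (-1/4)`; it follows that `S` becomes much smaller than
`N` and the throughput tends to zero.
-/

namespace Pool.Agent.Results.MP_b612d4_pr.UnstableAtEveryRate

open Filter Pool.Agent.R946.Aloha

theorem result :
    InH hf ∧ InE hf ef ∧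
      (∀ C : ℝ, 0 < C → ∀ lam : ℝ, 0 < lam → ∀ a : PMF ℕ,
        HasSum (fun k : ℕ => (k : ℝ) * (a k).toReal) lam →
          ¬ HarrisErgodic a C hf ef ∧
          ∀ η : ℝ, 0 < η → ∃ x : ℕ × ℝ, 1 ≤ x.2 ∧
            ∀ m : ℕ, ∀ᶠ n in atTop, probLe a C hf ef x m n ≤ η) ∧
      (∀ C : ℝ, 0 < C → ∀ lam : ℝ, 0 < lam → lam < Real.exp (-1) →
        ∃ a : PMF ℕ, HasSum (fun k : ℕ => (k : ℝ) * (a k).toReal) lam ∧
          ¬ HarrisErgodic a C hf ef) := by
  refine ⟨inH_hf, inE_ef, ?_, ?_⟩
  · intro C hC lam hl a ha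
    have h0 := mean_pos_ne hl ha
    exact ⟨not_harris hC h0, fun η hη => probLe_eventually hC h0 hη⟩
  · intro C hC lam hl hl1
    have h1 : lam < 1 := by
      have : Real.exp (-1) < 1 := by
        rw [Real.exp_lt_one_iff]
        norm_num
      linarith
    obtain ⟨a, ha⟩ := exists_mean hl h1
    exact ⟨a, ha, not_harris hC (mean_pos_ne hl ha)⟩

end Pool.Agent.Results.MP_b612d4_pr.UnstableAtEveryRate
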